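import Pool.Agent.N52.ST.Stm

/-!
# Project ST: the Casimir values are almost preserved (`S_CMP`)
-/

set_option autoImplicit false

namespace Pool.Agent.N340.ST.CMP

open Matrix Finset
open scoped ComplexOrder
open Pool.Agent.W661.RC Pool.Agent.W683.RC Pool.Agent.N303.KQ Pool.Agent.N52.NH Pool.Agent.N52.ST

noncomputable section

variable {d : ℕ} {ι : Type} {z : ι → Mt d}


open scoped Classical in
theorem pr_sum (hP : ∀ i, IsPr (z i)) (hO : ∀ i j, i ≠ j → z i * z j = 0) (S : Finset ι) :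
    IsPr (∑ i ∈ S, z i) := by
  refine ⟨?_, ?_⟩
  · rw [Matrix.conjTranspose_sum]
    exact Finset.sum_congr rfl fun i _ => (hP i).1
  · rw [Finset.sum_mul]
    refine Finset.sum_congr rfl fun i hi => ?_
    rw [Finset.mul_sum, Finset.sum_eq_single i]
    · exact (hP i).2
    · intro j _ hji
      exact hO i j (Ne.symm hji)
    · intro h
      exact absurd hi h


theorem hs_pr_mul {p : Mt d} (hp : IsPr p) (x : Mt d) : hs (p * x) = tr (xᴴ * p * x) := by
  rw [hs_eq_tr, Matrix.conjTranspose_mul, hp.1, Matrix.mul_assoc, ← Matrix.mul_assoc p, hp.2,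
    ← Matrix.mul_assoc]

theorem sum_left (hP : ∀ i, IsPr (z i)) (hO : ∀ i j, i ≠ j → z i * z j = 0) (S : Finset ι)
    (x : Mt d) : ∑ i ∈ S, hs (z i * x) = hs ((∑ i ∈ S, z i) * x) := by
  rw [hs_pr_mul (pr_sum hP hO S), Finset.mul_sum, Finset.sum_mul, tr_sum]
  exact Finset.sum_congr rfl fun i _ => hs_pr_mul (hP i) x

theorem sum_right (hP : ∀ i, IsPr (z i)) (hO : ∀ i j, i ≠ j → z i * z j = 0) (S : Finset ι)
    (x : Mt d) : ∑ i ∈ S, hs (x * z i) = hs (x * ∑ i ∈ S, z i) := by
  have h := sum_left hP hO S xᴴ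
  have e : ∀ p : Mt d, IsPr p → hs (p * xᴴ) = hs (x * p) := by
    intro p hp
    rw [← hs_conjTranspose, Matrix.conjTranspose_mul, Matrix.conjTranspose_conjTranspose, hp.1]
  rw [e _ (pr_sum hP hO S)] at h
  rw [← h]
  exact Finset.sum_congr rfl fun i _ => (e _ (hP i)).symm

theorem hs_pr_pr {p q : Mt d} (hp : IsPr p) (hq : IsPr q) : hs (q * p) = tr (p * q) := by
  rw [hs_pr_mul hq, hp.1, tr_mul_comm, ← Matrix.mul_assoc, hp.2]

theorem main (hK : S_KKZ) (hX : S_XX) : S_CMP := by
  classical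
  intro d O Q u a ρ ε e γ m hu hγ hm hQ hρ ha he hc
  obtain ⟨k1, k2, k3, k4, k5, -⟩ := hK d O
  have hP : ∀ κ, IsPr (zc O κ) := fun κ => (k1 κ).1
  have hcomm : ∀ κ, ∀ b ∈ O.alg, zc O κ * b = b * zc O κ := fun κ => (k1 κ).2.2
  have hPO : IsPr (pO O) := by rw [← k3]; exact pr_sum hP k2 _
  have hprQ : ∀ j, IsPr (pr Q j) := fun j => pr_isPr j
  set N0 : O.K → O.K → Prop := fun κ' κ => γ ^ 2 * cc O κ < cc O κ' with hN0
  have hxx := (hX d O Q u a e N0 (fun _ => N0) hu ha he).2
  -- one piece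
  have hone : ∀ j, mb O u (a j) N0 ≤ 4 * tr (pr Q j * ZG O (γ * m j)) +
      2 * tr (pr Q j * ZL O (m j / γ)) + 4 * hs (u * pr Q j - pr Q j * u) +
      4 * hs (pr Q j - a j) := by
    intro j
    have hZG : ZG O (γ * m j) = ∑ κ ∈ (cl O).filter (fun κ => γ * m j < cc O κ), zc O κ := by
      refine (k4 (fun κ => γ * m j < cc O κ)).trans ?_
      exact Finset.sum_congr (by ext x; simp only [Finset.mem_filter]) (fun _ _ => rfl)
    have hZL : ZL O (m j / γ) = ∑ κ ∈ (cl O).filter (fun κ => cc O κ ≤ m j / γ), zc O κ := by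
      refine (k4 (fun κ => cc O κ ≤ m j / γ)).trans ?_
      exact Finset.sum_congr (by ext x; simp only [Finset.mem_filter]) (fun _ _ => rfl)
    have hG : IsPr (ZG O (γ * m j)) := by rw [hZG]; exact pr_sum hP k2 _
    have hL : IsPr (ZL O (m j / γ)) := by rw [hZL]; exact pr_sum hP k2 _
    -- splitting
    have h1 : mb O u (a j) N0 ≤
        ∑ κ' ∈ (cl O).filter (fun κ => γ * m j < cc O κ), ∑ κ ∈ cl O,
          hs (zc O κ' * u * zc O κ * a j) +
        ∑ κ ∈ (cl O).filter (fun κ => cc O κ ≤ m j / γ), ∑ κ' ∈ cl O,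
          hs (zc O κ' * u * zc O κ * a j) := by
      rw [Finset.sum_comm (s := (cl O).filter (fun κ => cc O κ ≤ m j / γ)) (t := cl O)]
      rw [Finset.sum_filter, ← Finset.sum_add_distrib]
      unfold mb
      refine Finset.sum_le_sum fun κ' _ => ?_
      rw [Finset.sum_filter]
      by_cases hκ' : γ * m j < cc O κ'
      · rw [if_pos hκ']
        have h2 : ∑ κ ∈ cl O, (if N0 κ' κ then hs (zc O κ' * u * zc O κ * a j) else 0) ≤
            ∑ κ ∈ cl O, hs (zc O κ' * u * zc O κ * a j) := by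
          refine Finset.sum_le_sum fun κ _ => ?_
          split_ifs
          · exact le_refl _
          · exact hs_nonneg _
        have h3 : 0 ≤ ∑ κ ∈ cl O, (if cc O κ ≤ m j / γ then hs (zc O κ' * u * zc O κ * a j)
            else 0) := by
          refine Finset.sum_nonneg fun κ _ => ?_
          split_ifs
          · exact hs_nonneg _
          · exact le_refl _
        linarith
      · rw [if_neg hκ', zero_add]
        refine Finset.sum_le_sum fun κ _ => ?_
        by_cases hN : N0 κ' κ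
        · rw [if_pos hN]
          have h4 : cc O κ ≤ m j / γ := by
            by_contra hcc
            rw [not_le, div_lt_iff₀ (by linarith)] at hcc
            apply hκ'
            calc γ * m j < γ * (cc O κ * γ) := by
                  exact mul_lt_mul_of_pos_left hcc (by linarith)
              _ = γ ^ 2 * cc O κ := by ring
              _ < cc O κ' := hN
          rw [if_pos h4]
        · rw [if_neg hN]
          split_ifs
          · exact hs_nonneg _
          · exact le_refl _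
    -- the first part
    have h2 : ∑ κ' ∈ (cl O).filter (fun κ => γ * m j < cc O κ), ∑ κ ∈ cl O,
        hs (zc O κ' * u * zc O κ * a j) ≤ hs (ZG O (γ * m j) * (u * a j)) := by
      rw [hZG, ← sum_left hP k2]
      refine Finset.sum_le_sum fun κ' _ => ?_
      have e1 : ∀ κ, zc O κ' * u * zc O κ * a j = zc O κ' * (u * a j) * zc O κ := by
        intro κ
        rw [Matrix.mul_assoc (zc O κ' * u), hcomm κ _ (ha j)]
        simp only [Matrix.mul_assoc]
      calc ∑ κ ∈ cl O, hs (zc O κ' * u * zc O κ * a j) =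
            ∑ κ ∈ cl O, hs (zc O κ' * (u * a j) * zc O κ) :=
            Finset.sum_congr rfl fun κ _ => by rw [e1]
        _ = hs (zc O κ' * (u * a j) * pO O) := by rw [sum_right hP k2, k3]
        _ ≤ hs (zc O κ' * (u * a j)) := hs_mul_pr_le_self hPO _
    have h3 : hs (ZG O (γ * m j) * (u * a j)) ≤ 2 * hs (ZG O (γ * m j) * (u * pr Q j)) +
        2 * hs (pr Q j - a j) := by
      have e1 : ZG O (γ * m j) * (u * a j) = ZG O (γ * m j) * (u * pr Q j) -
          ZG O (γ * m j) * (u * (pr Q j - a j)) := by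
        rw [Matrix.mul_sub, Matrix.mul_sub]
        abel
      rw [e1]
      refine (hs_sub_le _ _).trans ?_
      have h4 : hs (ZG O (γ * m j) * (u * (pr Q j - a j))) ≤ hs (pr Q j - a j) := by
        refine (hs_pr_mul_le_self hG _).trans ?_
        rw [hs_unit_mul hu]
      linarith
    have h4 : hs (ZG O (γ * m j) * (u * pr Q j)) ≤ 2 * tr (pr Q j * ZG O (γ * m j)) +
        2 * hs (u * pr Q j - pr Q j * u) := by
      have e1 : ZG O (γ * m j) * (u * pr Q j) = ZG O (γ * m j) * pr Q j * u +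
          ZG O (γ * m j) * (u * pr Q j - pr Q j * u) := by
        rw [Matrix.mul_sub, ← Matrix.mul_assoc (ZG O (γ * m j)) (pr Q j)]
        abel
      rw [e1]
      refine (hs_add_le _ _).trans ?_
      rw [hs_mul_unit hu, hs_pr_pr (hprQ j) hG]
      have h5 : hs (ZG O (γ * m j) * (u * pr Q j - pr Q j * u)) ≤
          hs (u * pr Q j - pr Q j * u) := hs_pr_mul_le_self hG _
      linarith
    -- the second part
    have h5 : ∑ κ ∈ (cl O).filter (fun κ => cc O κ ≤ m j / γ), ∑ κ' ∈ cl O,
        hs (zc O κ' * u * zc O κ * a j) ≤ hs (ZL O (m j / γ) * a j) := by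
      rw [hZL, ← sum_left hP k2]
      refine Finset.sum_le_sum fun κ _ => ?_
      calc ∑ κ' ∈ cl O, hs (zc O κ' * u * zc O κ * a j) =
            ∑ κ' ∈ cl O, hs (zc O κ' * (u * (zc O κ * a j))) :=
            Finset.sum_congr rfl fun κ' _ => by simp only [Matrix.mul_assoc]
        _ = hs (pO O * (u * (zc O κ * a j))) := by rw [sum_left hP k2, k3]
        _ ≤ hs (u * (zc O κ * a j)) := hs_pr_mul_le_self hPO _
        _ = hs (zc O κ * a j) := hs_unit_mul hu _
    have h6 : hs (ZL O (m j / γ) * a j) ≤ 2 * tr (pr Q j * ZL O (m j / γ)) +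
        2 * hs (pr Q j - a j) := by
      have e1 : ZL O (m j / γ) * a j = ZL O (m j / γ) * pr Q j -
          ZL O (m j / γ) * (pr Q j - a j) := by
        rw [Matrix.mul_sub]
        abel
      rw [e1]
      refine (hs_sub_le _ _).trans ?_
      rw [hs_pr_pr (hprQ j) hL]
      have h7 : hs (ZL O (m j / γ) * (pr Q j - a j)) ≤ hs (pr Q j - a j) :=
        hs_pr_mul_le_self hL _
      linarith
    linarith
  have hG0 : ∀ j, 0 ≤ tr (pr Q j * ZG O (γ * m j)) := by
    intro j
    have hZG : ZG O (γ * m j) = ∑ κ ∈ (cl O).filter (fun κ => γ * m j < cc O κ), zc O κ := by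
      refine (k4 (fun κ => γ * m j < cc O κ)).trans ?_
      exact Finset.sum_congr (by ext x; simp only [Finset.mem_filter]) (fun _ _ => rfl)
    have hG : IsPr (ZG O (γ * m j)) := by rw [hZG]; exact pr_sum hP k2 _
    exact tr_mul_nonneg (pr_psd (hprQ j)) (pr_psd hG)
  have hL0 : ∀ j, 0 ≤ tr (pr Q j * ZL O (m j / γ)) := by
    intro j
    have hZL : ZL O (m j / γ) = ∑ κ ∈ (cl O).filter (fun κ => cc O κ ≤ m j / γ), zc O κ := by
      refine (k4 (fun κ => cc O κ ≤ m j / γ)).trans ?_
      exact Finset.sum_congr (by ext x; simp only [Finset.mem_filter]) (fun _ _ => rfl)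
    have hL : IsPr (ZL O (m j / γ)) := by rw [hZL]; exact pr_sum hP k2 _
    exact tr_mul_nonneg (pr_psd (hprQ j)) (pr_psd hL)
  have hsG : 0 ≤ ∑ j, tr (pr Q j * ZG O (γ * m j)) := Finset.sum_nonneg fun j _ => hG0 j
  have hsL : 0 ≤ ∑ j, tr (pr Q j * ZL O (m j / γ)) := Finset.sum_nonneg fun j _ => hL0 j
  have hse : 0 ≤ ∑ j, hs (pr Q j - a j) := Finset.sum_nonneg fun j _ => hs_nonneg _
  have hsum : ∑ j, mb O u (a j) N0 ≤ 4 * (ρ * d) + 8 * e := by
    refine (Finset.sum_le_sum fun j _ => hone j).trans ?_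
    rw [Finset.sum_add_distrib, Finset.sum_add_distrib, Finset.sum_add_distrib,
      ← Finset.mul_sum, ← Finset.mul_sum, ← Finset.mul_sum, ← Finset.mul_sum]
    linarith
  linarith

end

end Pool.Agent.N340.ST.CMP
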